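import Pool.Agent.N656.PC.Stm

set_option autoImplicit false

/-!
PC/RED: the polynomials with nonzero form of degree `d` that are reducible over `ℚ` are few
(factorisation over `ℤ` and reduction modulo a prime of the size of the coefficients).
-/

open Finset

namespace Pool.Agent.N415.PC

open Pool.Agent.R414.DN

/-! ### factorisation over the integers -/

/-- removal of a constant factor -/
lemma remove_const (N : ℕ) : N ≠ 0 → ∀ F G K : MvPolynomial (Fin 2) ℤ, G ≠ 0 → K ≠ 0 →
    MvPolynomial.C (N : ℤ) * F = G * K →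
    ∃ G' K' : MvPolynomial (Fin 2) ℤ, F = G' * K' ∧ G'.totalDegree = G.totalDegree ∧
      K'.totalDegree = K.totalDegree := by
  induction N using induction_on_primes with
  | zero => intro h; exact absurd rfl h
  | one =>
    intro _ F G K _ _ h
    exact ⟨G, K, by rw [← h]; simp, rfl, rfl⟩
  | prime_mul p a hp ih =>
    intro h0 F G K hG hK h
    have ha : a ≠ 0 := fun h1 => h0 (by rw [h1, mul_zero])
    have hpi : Prime (p : ℤ) := Nat.prime_iff_prime_int.1 hp
    have hC : Prime (MvPolynomial.C (p : ℤ) : MvPolynomial (Fin 2) ℤ) :=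
      (MvPolynomial.prime_C_iff (Fin 2)).2 hpi
    have hC0 : (MvPolynomial.C (p : ℤ) : MvPolynomial (Fin 2) ℤ) ≠ 0 := hC.ne_zero
    have h1 : MvPolynomial.C (p : ℤ) * (MvPolynomial.C (a : ℤ) * F) = G * K := by
      rw [← h, ← mul_assoc, ← MvPolynomial.C_mul]
      push_cast
      rfl
    have htd : ∀ P : MvPolynomial (Fin 2) ℤ, P ≠ 0 →
        (MvPolynomial.C (p : ℤ) * P).totalDegree = P.totalDegree := by
      intro P hP
      rw [MvPolynomial.totalDegree_mul_of_isDomain hC0 hP, MvPolynomial.totalDegree_C, zero_add]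
    rcases hC.dvd_or_dvd (Dvd.intro _ h1) with ⟨G1, hG1⟩ | ⟨K1, hK1⟩
    · have hG10 : G1 ≠ 0 := fun h2 => hG (by rw [hG1, h2, mul_zero])
      obtain ⟨G', K', e1, e2, e3⟩ := ih ha F G1 K hG10 hK (mul_left_cancel₀ hC0 (by
        rw [h1, hG1, mul_assoc]))
      exact ⟨G', K', e1, by rw [e2, hG1, htd G1 hG10], e3⟩
    · have hK10 : K1 ≠ 0 := fun h2 => hK (by rw [hK1, h2, mul_zero])
      obtain ⟨G', K', e1, e2, e3⟩ := ih ha F G K1 hG hK10 (mul_left_cancel₀ hC0 (by
        rw [h1, hK1]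
        ring))
      exact ⟨G', K', e1, e2, by rw [e3, hK1, htd K1 hK10]⟩

/-- common denominators -/
lemma clear (g : MvPolynomial (Fin 2) ℚ) : ∃ n : ℕ, n ≠ 0 ∧ ∃ G : MvPolynomial (Fin 2) ℤ,
    MvPolynomial.map (Int.castRingHom ℚ) G = MvPolynomial.C (n : ℚ) * g := by
  induction g using MvPolynomial.induction_on with
  | C q =>
    refine ⟨q.den, q.den_nz, MvPolynomial.C q.num, ?_⟩
    rw [MvPolynomial.map_C, ← MvPolynomial.C_mul]
    congr 1
    rw [eq_intCast, mul_comm]
    exact (Rat.mul_den_eq_num q).symm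
  | add f g hf hg =>
    obtain ⟨n, hn, F, hF⟩ := hf
    obtain ⟨m, hm, G, hG⟩ := hg
    refine ⟨n * m, Nat.mul_ne_zero hn hm, MvPolynomial.C (m : ℤ) * F + MvPolynomial.C (n : ℤ) * G, ?_⟩
    rw [map_add, map_mul, map_mul, hF, hG, MvPolynomial.map_C, MvPolynomial.map_C]
    push_cast
    rw [MvPolynomial.C_mul, eq_intCast, eq_intCast]
    push_cast
    ring
  | mul_X f i hf =>
    obtain ⟨n, hn, F, hF⟩ := hf
    refine ⟨n, hn, F * MvPolynomial.X i, ?_⟩
    rw [map_mul, hF, MvPolynomial.map_X, mul_assoc]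

lemma map_inj : Function.Injective
    (MvPolynomial.map (Int.castRingHom ℚ) : MvPolynomial (Fin 2) ℤ →+* MvPolynomial (Fin 2) ℚ) :=
  MvPolynomial.map_injective _ (RingHom.injective_int _)

lemma td_map (G : MvPolynomial (Fin 2) ℤ) :
    (MvPolynomial.map (Int.castRingHom ℚ) G).totalDegree = G.totalDegree := by
  unfold MvPolynomial.totalDegree
  rw [MvPolynomial.support_map_of_injective G (RingHom.injective_int (Int.castRingHom ℚ))]

lemma td_map_le {R : Type} [CommRing R] (f : ℤ →+* R) (G : MvPolynomial (Fin 2) ℤ) :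
    (MvPolynomial.map f G).totalDegree ≤ G.totalDegree := by
  unfold MvPolynomial.totalDegree
  exact Finset.sup_mono (MvPolynomial.support_map_subset f G)

/-- a polynomial of positive total degree which is reducible over `ℚ` is a product of two
polynomials of positive total degree over `ℤ` -/
lemma factor (F : MvPolynomial (Fin 2) ℤ) (hF : 0 < F.totalDegree)
    (h : ¬ Irreducible (MvPolynomial.map (Int.castRingHom ℚ) F)) :
    ∃ G K : MvPolynomial (Fin 2) ℤ, F = G * K ∧ 0 < G.totalDegree ∧ 0 < K.totalDegree ∧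
      G.totalDegree + K.totalDegree = F.totalDegree := by
  have hF0 : F ≠ 0 := fun h0 => by rw [h0, MvPolynomial.totalDegree_zero] at hF; exact absurd hF (lt_irrefl _)
  have hFQ0 : MvPolynomial.map (Int.castRingHom ℚ) F ≠ 0 := fun h0 => hF0 (map_inj (by rw [h0, map_zero]))
  have hunit : ∀ g : MvPolynomial (Fin 2) ℚ, g ≠ 0 → ¬ IsUnit g → 0 < g.totalDegree := by
    intro g hg hu
    by_contra hcon
    have h1 : g.totalDegree = 0 := by omega
    rw [MvPolynomial.totalDegree_eq_zero_iff_eq_C] at h1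
    apply hu
    rw [h1]
    apply IsUnit.map
    rw [isUnit_iff_ne_zero]
    intro h2
    apply hg
    rw [h1, h2, MvPolynomial.C_0]
  have hnu : ¬ IsUnit (MvPolynomial.map (Int.castRingHom ℚ) F) := by
    intro hu
    obtain ⟨v, hv⟩ := hu.exists_right_inv
    have hv0 : v ≠ 0 := fun h0 => by rw [h0, mul_zero] at hv; exact zero_ne_one hv
    have h1 := congrArg MvPolynomial.totalDegree hv
    rw [MvPolynomial.totalDegree_mul_of_isDomain hFQ0 hv0, MvPolynomial.totalDegree_one, td_map] at h1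
    omega
  rw [irreducible_iff] at h
  push Not at h
  obtain ⟨g, k, hgk, hg, hk⟩ := h hnu
  have hg0 : g ≠ 0 := fun h0 => hFQ0 (by rw [hgk, h0, zero_mul])
  have hk0 : k ≠ 0 := fun h0 => hFQ0 (by rw [hgk, h0, mul_zero])
  obtain ⟨n, hn, G, hG⟩ := clear g
  obtain ⟨m, hm, K, hK⟩ := clear k
  have hCn : (MvPolynomial.C (n : ℚ) : MvPolynomial (Fin 2) ℚ) ≠ 0 := by
    rw [Ne, MvPolynomial.C_eq_zero]; exact_mod_cast hn
  have hCm : (MvPolynomial.C (m : ℚ) : MvPolynomial (Fin 2) ℚ) ≠ 0 := by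
    rw [Ne, MvPolynomial.C_eq_zero]; exact_mod_cast hm
  have tdG : G.totalDegree = g.totalDegree := by
    rw [← td_map, hG, MvPolynomial.totalDegree_mul_of_isDomain hCn hg0, MvPolynomial.totalDegree_C,
      zero_add]
  have tdK : K.totalDegree = k.totalDegree := by
    rw [← td_map, hK, MvPolynomial.totalDegree_mul_of_isDomain hCm hk0, MvPolynomial.totalDegree_C,
      zero_add]
  have hG0 : G ≠ 0 := fun h0 => mul_ne_zero hCn hg0 (by rw [← hG, h0, map_zero])
  have hK0 : K ≠ 0 := fun h0 => mul_ne_zero hCm hk0 (by rw [← hK, h0, map_zero])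
  have h2 : MvPolynomial.C (((n * m : ℕ)) : ℤ) * F = G * K := by
    apply map_inj
    rw [map_mul, map_mul, hG, hK, MvPolynomial.map_C, hgk, eq_intCast]
    push_cast
    rw [MvPolynomial.C_mul]
    ring
  obtain ⟨G', K', e1, e2, e3⟩ := remove_const (n * m) (Nat.mul_ne_zero hn hm) F G K hG0 hK0 h2
  have hG'0 : G' ≠ 0 := fun h0 => hF0 (by rw [e1, h0, zero_mul])
  have hK'0 : K' ≠ 0 := fun h0 => hF0 (by rw [e1, h0, mul_zero])
  refine ⟨G', K', e1, ?_, ?_, ?_⟩
  · rw [e2, tdG]; exact hunit g hg0 hg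
  · rw [e3, tdK]; exact hunit k hk0 hk
  · rw [e1, MvPolynomial.totalDegree_mul_of_isDomain hG'0 hK'0]

/-! ### polynomials given by their coefficients, over any ring -/

/-- the polynomial with the coefficients `u` -/
noncomputable def pR {R : Type} [CommRing R] {i : ℕ} (u : ↥(I i) → R) : MvPolynomial (Fin 2) R :=
  ∑ q : ↥(I i), MvPolynomial.monomial (mo q.1) (u q)

lemma mo_eq (m : Fin 2 →₀ ℕ) : mo (m 0 + m 1, m 0) = m := by
  ext j
  fin_cases j
  · exact mo_zero _
  · show mo _ 1 = m 1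
    rw [mo_one]
    simp

lemma coeff_pR_of_mem {R : Type} [CommRing R] {i : ℕ} (u : ↥(I i) → R) (m : Fin 2 →₀ ℕ)
    (h : (m 0 + m 1, m 0) ∈ I i) : (pR u).coeff m = u ⟨_, h⟩ := by
  unfold pR
  rw [MvPolynomial.coeff_sum]
  simp only [MvPolynomial.coeff_monomial]
  rw [sum_eq_single ⟨(m 0 + m 1, m 0), h⟩]
  · rw [if_pos (mo_eq m)]
  · intro q _ hq
    rw [if_neg]
    intro h1
    apply hq
    apply Subtype.ext
    have h2 := mo_zero q.1
    have h3 := mo_one q.1
    rw [h1] at h2 h3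
    have h4 := mem_I.1 q.2
    apply Prod.ext
    · simp only
      omega
    · exact h2.symm
  · intro h1
    exact absurd (mem_univ _) h1

lemma coeff_pR_of_notMem {R : Type} [CommRing R] {i : ℕ} (u : ↥(I i) → R) (m : Fin 2 →₀ ℕ)
    (h : (m 0 + m 1, m 0) ∉ I i) : (pR u).coeff m = 0 := by
  unfold pR
  rw [MvPolynomial.coeff_sum]
  simp only [MvPolynomial.coeff_monomial]
  apply sum_eq_zero
  intro q _
  rw [if_neg]
  intro h1
  apply h
  have h2 := mo_zero q.1
  have h3 := mo_one q.1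
  rw [h1] at h2 h3
  have h4 := mem_I.1 q.2
  rw [mem_I]
  simp only
  omega

lemma eq_pR {R : Type} [CommRing R] {i : ℕ} (P : MvPolynomial (Fin 2) R) (hP : P.totalDegree ≤ i) :
    P = pR (fun q : ↥(I i) => P.coeff (mo q.1)) := by
  ext m
  by_cases h : (m 0 + m 1, m 0) ∈ I i
  · rw [coeff_pR_of_mem _ m h]
    simp only
    rw [mo_eq]
  · rw [coeff_pR_of_notMem _ m h]
    apply MvPolynomial.coeff_eq_zero_of_totalDegree_lt
    rw [mem_I] at h
    simp only at h
    have h1 : ∑ j ∈ m.support, m j = m 0 + m 1 := by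
      have := Finsupp.sum_fintype m (fun _ e => e) (by intro i; rfl)
      rw [Fin.sum_univ_two] at this
      exact this
    rw [h1]
    omega

/-! ### counting -/

open Classical in
/-- the coefficient vectors modulo `p` of the products of polynomials of the degrees `i`, `d - i` -/
noncomputable def TT (d p : ℕ) [NeZero p] : Finset (↥(I d) → ZMod p) :=
  (Ico 1 d).biUnion fun i => univ.image fun uv : (↥(I i) → ZMod p) × (↥(I (d - i)) → ZMod p) =>
    fun q : ↥(I d) => (pR uv.1 * pR uv.2).coeff (mo q.1)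

lemma MM_mul {d i : ℕ} (hd : 4 ≤ d) (h1 : 1 ≤ i) (h2 : i < d) : MM i + MM (d - i) + 2 ≤ MM d := by
  obtain ⟨j, hj⟩ : ∃ j, j = d - i := ⟨_, rfl⟩
  have hdj : d = i + j := by omega
  have hj1 : 1 ≤ j := by omega
  have e1 := card_I i
  have e2 := card_I j
  have e3 := card_I d
  have f1 : MM i = (I i).card := by unfold MM; exact Fintype.card_coe _
  have f2 : MM j = (I j).card := by unfold MM; exact Fintype.card_coe _
  have f3 : MM d = (I d).card := by unfold MM; exact Fintype.card_coe _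
  rw [← f1] at e1
  rw [← f2] at e2
  rw [← f3, hdj] at e3
  rw [← hj, hdj]
  have hij : i + j ≤ i * j + 1 := by
    obtain ⟨i', rfl⟩ : ∃ i', i = i' + 1 := ⟨i - 1, by omega⟩
    obtain ⟨j', rfl⟩ : ∃ j', j = j' + 1 := ⟨j - 1, by omega⟩
    nlinarith
  nlinarith

lemma card_TT {d p : ℕ} [NeZero p] (hd : 4 ≤ d) : (TT d p).card ≤ d * p ^ (MM d - 2) := by
  classical
  unfold TT
  refine card_biUnion_le.trans ?_
  have h1 : ∀ i ∈ Ico 1 d, (univ.image fun uv : (↥(I i) → ZMod p) × (↥(I (d - i)) → ZMod p) =>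
      fun q : ↥(I d) => (pR uv.1 * pR uv.2).coeff (mo q.1)).card ≤ p ^ (MM d - 2) := by
    intro i hi
    rw [mem_Ico] at hi
    refine card_image_le.trans ?_
    rw [card_univ, Fintype.card_prod, Fintype.card_fun, Fintype.card_fun, ZMod.card, ← pow_add]
    have h2 := MM_mul hd hi.1 hi.2
    refine Nat.pow_le_pow_right (Nat.pos_of_ne_zero (NeZero.ne p)) ?_
    have h3 : MM i + MM (d - i) ≤ MM d - 2 := by omega
    exact h3
  refine (sum_le_card_nsmul _ _ _ h1).trans ?_
  rw [Nat.card_Ico, smul_eq_mul]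
  exact Nat.mul_le_mul_right _ (by omega)

lemma mem_TT {d p : ℕ} [NeZero p] {a : Cf d} (hd : 4 ≤ d) (ha : ∃ i, co a d i ≠ 0)
    (h : ¬ Irreducible (MvPolynomial.map (Int.castRingHom ℚ) (poly a))) :
    (fun q : ↥(I d) => ((a q : ℤ) : ZMod p)) ∈ TT d p := by
  classical
  obtain ⟨i0, hi0⟩ := ha
  have hle : i0 ≤ d := by
    by_contra hcon
    apply hi0
    unfold co
    rw [dif_neg]
    rw [mem_I]
    simp only
    omega
  have htd : (poly a).totalDegree = d := by
    apply le_antisymm (totalDegree_poly_le a)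
    have h1 : mo (d, i0) ∈ (poly a).support := by
      rw [MvPolynomial.mem_support_iff, coeff_poly, mo_zero, mo_one]
      simp only
      rw [Nat.add_sub_cancel' hle]
      exact hi0
    have h2 := MvPolynomial.le_totalDegree h1
    have h3 : (mo (d, i0)).sum (fun _ e => e) = d := by
      rw [Finsupp.sum_fintype _ _ (by intro i; rfl), Fin.sum_univ_two, mo_zero, mo_one]
      simp only
      omega
    rw [h3] at h2
    exact h2
  obtain ⟨G, K, e1, e2, e3, e4⟩ := factor (poly a) (by omega) h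
  rw [htd] at e4
  unfold TT
  rw [mem_biUnion]
  refine ⟨G.totalDegree, by rw [mem_Ico]; omega, ?_⟩
  rw [mem_image]
  refine ⟨(fun q => (MvPolynomial.map (Int.castRingHom (ZMod p)) G).coeff (mo q.1),
    fun q => (MvPolynomial.map (Int.castRingHom (ZMod p)) K).coeff (mo q.1)), mem_univ _, ?_⟩
  simp only
  rw [← eq_pR (i := G.totalDegree) _ (td_map_le _ _),
    ← eq_pR (i := d - G.totalDegree) _ ((td_map_le _ _).trans (by omega)),
    ← map_mul, ← e1]
  funext q
  rw [MvPolynomial.coeff_map, coeff_poly_mo]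
  rfl

theorem t_RED : Pool.Agent.N656.PC.S_RED := by
  classical
  intro d hd
  refine ⟨2 ^ MM d * d, by positivity, ?_⟩
  intro H hH S hS hred
  obtain ⟨p, hp, hHp, hpH⟩ := Nat.exists_prime_lt_and_le_two_mul H (by omega)
  have : NeZero p := ⟨hp.ne_zero⟩
  have hinj : ∀ n n' : ℤ, |n| ≤ H → |n'| ≤ H → ((n : ℤ) : ZMod p) = ((n' : ℤ) : ZMod p) →
      ((0 ≤ n) ↔ (0 ≤ n')) → n = n' := by
    intro n n' h1 h2 h3 h4
    rw [ZMod.intCast_eq_intCast_iff_dvd_sub] at h3
    obtain ⟨t, ht⟩ := h3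
    rw [abs_le] at h1 h2
    have hpZ : (H : ℤ) < p := by exact_mod_cast hHp
    have h5 : |n' - n| < p := by
      rw [abs_lt]
      by_cases h6 : 0 ≤ n
      · have h7 := h4.1 h6
        constructor <;> linarith
      · have h7 : ¬ 0 ≤ n' := fun h8 => h6 (h4.2 h8)
        push Not at h6 h7
        constructor <;> linarith
    have h6 : n' - n = 0 := Int.eq_zero_of_abs_lt_dvd ⟨t, ht⟩ h5
    linarith
  have h1 : S.card ≤ ((TT d p) ×ˢ (univ : Finset (↥(I d) → Bool))).card := by
    refine card_le_card_of_injOn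
      (fun a => ((fun q : ↥(I d) => ((a q : ℤ) : ZMod p)), fun q => decide (0 ≤ a q))) ?_ ?_
    · intro a ha
      rw [mem_coe] at ha
      simp only [coe_product, coe_univ, Set.mem_prod, Set.mem_univ, and_true]
      exact mem_TT hd (hred a ha).1 (hred a ha).2
    · intro a ha b hb hab
      rw [mem_coe] at ha hb
      simp only [Prod.mk.injEq] at hab
      funext q
      have h2 := mem_ibox.1 (hS ha) q
      have h3 := mem_ibox.1 (hS hb) q
      refine hinj (a q) (b q) h2 h3 (congrFun hab.1 q) ?_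
      have h4 := congrFun hab.2 q
      simpa using h4
  rw [card_product, card_univ, Fintype.card_fun, Fintype.card_bool] at h1
  have h2 : (TT d p).card ≤ d * p ^ (MM d - 2) := card_TT hd
  have h3 : (S.card : ℝ) ≤ (d * p ^ (MM d - 2)) * 2 ^ MM d := by
    have h4 : S.card ≤ (d * p ^ (MM d - 2)) * 2 ^ MM d := h1.trans (Nat.mul_le_mul_right _ h2)
    exact_mod_cast h4
  refine h3.trans ?_
  have h5 : (p : ℝ) ^ (MM d - 2) ≤ (2 * (H : ℝ) + 1) ^ (MM d - 2) := by
    apply pow_le_pow_left₀ (Nat.cast_nonneg p)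
    have h6 : (p : ℝ) ≤ 2 * H := by exact_mod_cast hpH
    linarith
  calc ((d : ℝ) * (p : ℝ) ^ (MM d - 2)) * 2 ^ MM d ≤ (d * (2 * (H : ℝ) + 1) ^ (MM d - 2)) * 2 ^ MM d := by
        gcongr
    _ = 2 ^ MM d * d * (2 * (H : ℝ) + 1) ^ (MM d - 2) := by ring

end Pool.Agent.N415.PC
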